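import Mathlib
import Pool.Agent.Results.MP_9038fc_co.Disproof
import Pool.Agent.Y351.HC.Small
import Pool.Agent.Y351.HC.Eight
set_option autoImplicit false
namespace Pool.Agent.Results.MP_9038fc_co.Spectrum

open Pool.Agent.Results.MP_9038fc_co.Disproof (IsTournament hamCount maxHam)

/-- Some tournament on `n` vertices has exactly `h` Hamiltonian circuits. -/
def Realised (n h : ℕ) : Prop :=
  ∃ adj : Fin n → Fin n → Prop, IsTournament adj ∧ hamCount adj = h

/-- `1, 1, 1, 3, 5, 9, 17, 31, 57, ...`: each term from the fourth on is the sum of the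
three terms before it. -/
def trib : ℕ → ℕ
  | 0 => 1
  | 1 => 1
  | 2 => 1
  | n + 3 => trib n + trib (n + 1) + trib (n + 2)

theorem trib_eq (n : ℕ) : trib n = Pool.Agent.Y351.HC.trib n := by
  induction n using Nat.strong_induction_on with
  | _ n ih =>
    match n with
    | 0 => rfl
    | 1 => rfl
    | 2 => rfl
    | n + 3 =>
      show trib n + trib (n + 1) + trib (n + 2) = _
      rw [ih n (by omega), ih (n + 1) (by omega), ih (n + 2) (by omega)]
      rfl

theorem initial (n : ℕ) (hn : 1 ≤ n) (h : ℕ) (hh : h ≤ trib n) : Realised (n + 2) h := by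
  obtain ⟨m, rfl⟩ : ∃ m, n = m + 1 := ⟨n - 1, by omega⟩
  rw [trib_eq] at hh
  exact Pool.Agent.Y351.HC.exists_tournament m h hh

theorem seven (h : ℕ) : Realised 7 h ↔ h ≤ 15 ∨ h = 17 ∨ h = 24 := by
  constructor
  · rintro ⟨adj, hT, rfl⟩
    exact Pool.Agent.Y351.HC.spec7 adj hT
  · exact Pool.Agent.Y351.HC.real7 h

theorem all_of_bound {n b : ℕ} (hb : ∀ adj : Fin n → Fin n → Prop, IsTournament adj →
    hamCount adj ≤ b) (hr : ∀ h ≤ b, Realised n h) : ∀ h ≤ maxHam n, Realised n h :=
  fun h hh => hr h (hh.trans (Pool.Agent.Y351.HC.maxHam_le hb))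

theorem small12 (n : ℕ) (hn : n = 1 ∨ n = 2) : ∀ h ≤ maxHam n, Realised n h := by
  apply all_of_bound (b := 0) (fun adj hT => (Pool.Agent.Y351.HC.exists_zero n hn adj hT).le)
  intro h hh
  have hT : IsTournament (fun i j : Fin n => i < j) :=
    ⟨fun v => lt_irrefl v, fun v w hvw => by
      rw [not_lt]
      exact ⟨fun h => h.le, fun h => lt_of_le_of_ne h hvw⟩⟩
  exact ⟨_, hT, by rw [Pool.Agent.Y351.HC.exists_zero n hn _ hT]; omega⟩

/-- For `n ≤ 8` every `h` up to the largest number of Hamiltonian circuits of an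
`n`-tournament is realised, except when `n = 7`; for `n = 7` the realised numbers are
`0, ..., 15, 17, 24`; and for every `n ≥ 1` all `h ≤ trib n` are realised on `n + 2` vertices.
In particular the answer to Q1 is negative, and `n = 7` is the least counterexample. -/
theorem result :
    (∀ n : ℕ, 1 ≤ n → n ≤ 8 → ((∀ h ≤ maxHam n, Realised n h) ↔ n ≠ 7)) ∧
    (∀ h : ℕ, Realised 7 h ↔ h ≤ 15 ∨ h = 17 ∨ h = 24) ∧
    (∀ n : ℕ, 1 ≤ n → ∀ h ≤ trib n, Realised (n + 2) h) := by
  refine ⟨?_, seven, initial⟩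
  intro n h1 h8
  interval_cases n
  · exact ⟨fun _ => by decide, fun _ => small12 1 (Or.inl rfl)⟩
  · exact ⟨fun _ => by decide, fun _ => small12 2 (Or.inr rfl)⟩
  · exact ⟨fun _ => by decide, fun _ => all_of_bound Pool.Agent.Y351.HC.bound3
      (fun h hh => initial 1 (by norm_num) h hh)⟩
  · exact ⟨fun _ => by decide, fun _ => all_of_bound Pool.Agent.Y351.HC.bound4
      (fun h hh => initial 2 (by norm_num) h hh)⟩
  · exact ⟨fun _ => by decide, fun _ => all_of_bound Pool.Agent.Y351.HC.bound5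
      (fun h hh => initial 3 (by norm_num) h hh)⟩
  · exact ⟨fun _ => by decide, fun _ => all_of_bound Pool.Agent.Y351.HC.bound6
      (fun h hh => initial 4 (by norm_num) h hh)⟩
  · refine ⟨fun H => ?_, fun H => absurd rfl H⟩
    have h24 : 24 ≤ maxHam 7 :=
      Pool.Agent.Y351.HC.le_maxHam ((seven 24).2 (Or.inr (Or.inr rfl)))
    have := (seven 16).1 (H 16 (by omega))
    omega
  · exact ⟨fun _ => by decide, fun _ => all_of_bound Pool.Agent.Y351.HC.bound8
      (fun h hh => Pool.Agent.Y351.HC.real8 h hh)⟩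

end Pool.Agent.Results.MP_9038fc_co.Spectrum
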